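import Pool.Agent.K4H74.Phylo.Num

/-!
# Non-trivial common partition counts of two trees need not be unimodal

Two caterpillars `T`, `F` with `320` leaves.  Call the leaf `i` (`0 ≤ i < 320`) a `U`-leaf if
`i % 8 < 5` and a `V`-leaf otherwise.  The leaves of `T` come in the natural order, the leaves of
`F` come in the order where all `U`-leaves precede all `V`-leaves, each of the two sets in its
natural order.  The numbers `a_k` of the non-trivial common partitions with `k` classes satisfy
`a_191 < a_161` and `a_191 < a_212`.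
-/

set_option autoImplicit false

namespace Pool.Agent.Results.MP_8b9f13_co.NotUnimodal

open Pool.Agent.R935.Phylo Pool.Agent.K4H74.Phylo

/-- `(a_k)_{k=1}^n` is unimodal: `a_1 ≤ ... ≤ a_m ≥ a_{m+1} ≥ ... ≥ a_n` for some `m`. -/
def Unimodal (a : ℕ → ℕ) (n : ℕ) : Prop :=
  ∃ m, 1 ≤ m ∧ m ≤ n ∧ (∀ k, 1 ≤ k → k < m → a k ≤ a (k + 1)) ∧
    (∀ k, m ≤ k → k < n → a (k + 1) ≤ a k)

theorem Unimodal.le_or {a : ℕ → ℕ} {n : ℕ} (h : Unimodal a n) {i j k : ℕ} (hi : 1 ≤ i)
    (hij : i ≤ j) (hjk : j ≤ k) (hk : k ≤ n) : a i ≤ a j ∨ a k ≤ a j := by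
  obtain ⟨m, -, -, h1, h2⟩ := h
  by_cases hj : j ≤ m
  · left
    have key : ∀ l, i ≤ l → l ≤ m → a i ≤ a l := by
      intro l hl
      induction l, hl using Nat.le_induction with
      | base => intro _; exact le_rfl
      | succ l hl ih =>
        intro hlm
        exact (ih (by omega)).trans (h1 l (by omega) (by omega))
    exact key j hij hj
  · right
    have key : ∀ l, j ≤ l → l ≤ n → a l ≤ a j := by
      intro l hl
      induction l, hl using Nat.le_induction with
      | base => intro _; exact le_rfl
      | succ l hl ih =>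
        intro hln
        exact (h2 l (by omega) (by omega)).trans (ih (by omega))
    exact key k hjk hk

/-- The sequence of the non-trivial common partition counts is not unimodal for some pair of
trees. -/
theorem result : ∃ (n : ℕ) (T F : PhyloTree n), ¬ Unimodal (fun k => commonNT T F k) n := by
  refine ⟨318 + 2, cat 318 (by norm_num) 1, cat 318 (by norm_num) sg, fun h => ?_⟩
  obtain ⟨h1, h2⟩ := bounds
  have h3 := h.le_or (i := 161) (j := 191) (k := 212) (by norm_num) (by norm_num) (by norm_num)
    (by norm_num)
  simp only [commonNT_eq] at h3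
  rcases h3 with h3 | h3
  · exact absurd h3 (not_le.2 h1)
  · exact absurd h3 (not_le.2 h2)

end Pool.Agent.Results.MP_8b9f13_co.NotUnimodal
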